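import Pool.Agent.helper61.DP.SpecA

/-!
# GO: interface edges on the outer circle (project dp)
-/

namespace DP

/-- A function is constant along the edges where `f` vanishes. -/
theorem GO_const {R W : Set V} {f : V → V → ZMod 2} {φ : V → ZMod 2}
    (hφ : ∀ u ∈ R, ∀ v ∈ R, Adj u v → f u v = φ u + φ v) (hW : W ⊆ R)
    (h0 : ∀ u ∈ W, ∀ v ∈ W, f u v = 0) {u v : V} (h : Con W u v) : φ u = φ v := by
  refine h.induct' (fun z => φ u = φ z) rfl fun a b ha hb hab hP => ?_
  have h1 := hφ a (hW ha) b (hW hb) hab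
  rw [h0 a ha b hb] at h1
  rw [hP]
  have h2 : φ a = -φ b := eq_neg_of_add_eq_zero_left h1.symm
  rw [h2, ZMod.neg_eq_self_mod_two]

open Classical in
/-- Cochain of the edges between two disjoint sets. -/
noncomputable def GO_f (C B : Set V) (u v : V) : ZMod 2 :=
  if (u ∈ C ∧ v ∈ B) ∨ (u ∈ B ∧ v ∈ C) then 1 else 0

theorem GO_closed {R C B : Set V} (hCB : ∀ v, v ∈ C → v ∈ B → False)
    (key : ∀ u v w, w ∈ R → Adj u w → Adj v w → Adj u v → u ∈ C → v ∈ B → u ∈ R → v ∈ R →
      w ∈ C ∨ w ∈ B) : Closed R (GO_f C B) := by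
  refine ⟨fun u v => ?_, fun u v w hu hv hw' huv hvw hwu => ?_⟩
  · simp only [GO_f]
    congr 1
    apply propext
    tauto
  · have k1 := fun x y => key u v w hw' hwu.symm hvw huv x y hu hv
    have k1' := fun x y => key v u w hw' hvw hwu.symm huv.symm x y hv hu
    have k2 := fun x y => key v w u hu huv.symm hwu hvw x y hv hw'
    have k2' := fun x y => key w v u hu hwu huv.symm hvw.symm x y hw' hv
    have k3 := fun x y => key u w v hv huv hvw.symm hwu.symm x y hu hw'
    have k3' := fun x y => key w u v hv hvw.symm huv hwu x y hw' hu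
    have a1 := hCB u
    have a2 := hCB v
    have a3 := hCB w
    simp only [GO_f]
    by_cases uA : u ∈ C <;> by_cases uB : u ∈ B <;> by_cases vA : v ∈ C <;>
      by_cases vB : v ∈ B <;> by_cases wA : w ∈ C <;> by_cases wB : w ∈ B <;>
      simp only [uA, uB, vA, vB, wA, wB, true_and, and_true, or_true, true_or, if_true,
        false_and, and_false, or_false, false_or, if_false, add_zero, zero_add,
        true_imp_iff, imp_false, not_true_eq_false, or_self, and_self] at * <;>
      rfl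

theorem GO (hCX : CX_stmt) (hPO : PO_stmt) (hAI : AI_stmt) (hPR : PR_stmt) : GO_stmt := by
  classical
  intro x m n C u v hx hm hmn hC hu hv hup hvq
  obtain ⟨p, hp, hup⟩ := hup
  obtain ⟨q, hq, hvq⟩ := hvq
  set U : Set V := ann x m n with hU
  set N : Set V := nbd U C with hN
  let B : Set V := {w | w ∈ N ∧ ¬ ∃ p ∈ bd x m, Con N w p}
  have hNC : ∀ w, w ∈ C → w ∈ N → False := fun w h1 h2 => h2.2.1 h1
  have hCB : ∀ w, w ∈ C → w ∈ B → False := fun w h1 h2 => hNC w h1 h2.1
  let f : V → V → ZMod 2 := GO_f C B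
  have hf0 : ∀ u v, u ∉ C → v ∉ C → f u v = 0 := by
    intro u v hu hv
    simp [f, GO_f, hu, hv]
  have hf1 : ∀ u v, u ∉ B → v ∉ B → f u v = 0 := by
    intro u v hu hv
    simp [f, GO_f, hu, hv]
  have hBm : ∀ w ∈ B, m + 1 ≤ sd x w := by
    rintro w ⟨h1, h2⟩
    have h3 : m ≤ sd x w := h1.1.1
    rcases Nat.lt_or_ge m (sd x w) with h4 | h4
    · exact h4
    · exact absurd ⟨w, le_antisymm h4 h3, Con.refl h1⟩ h2
  have hcl : Closed (rect (x.1 - n) (x.1 + n) (x.2 - n) (x.2 + n)) f := by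
    refine GO_closed hCB fun a b w hw haw hbw hab ha hb _ _ => ?_
    by_cases hwC : w ∈ C
    · exact Or.inl hwC
    · right
      have h1 := hBm b hb
      have h2 := hbw.symm.sd_le' x
      have h3 : w ∈ N := by
        refine ⟨⟨by omega, ?_⟩, hwC, a, ha, haw⟩
        simp only [rect, Set.mem_ofPred_eq] at hw
        unfold sd
        omega
      refine ⟨h3, ?_⟩
      rintro ⟨p', hp', hcon⟩
      exact hb.2 ⟨p', hp', (Con.single hb.1 hbw h3).trans hcon⟩
  obtain ⟨φ, hφ⟩ := hPR _ _ _ _ f hcl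
  have hbox : box x n ⊆ rect (x.1 - n) (x.1 + n) (x.2 - n) (x.2 + n) := by
    intro w hw
    simp only [box, sd, Set.mem_ofPred_eq] at hw
    simp only [rect, Set.mem_ofPred_eq]
    omega
  have hUR : U ⊆ rect (x.1 - n) (x.1 + n) (x.2 - n) (x.2 + n) := fun w hw => hbox hw.2
  have p1 : φ u = φ p := GO_const hφ (hC.trans hUR)
    (fun a ha b hb => hf1 a b (fun h => hCB a ha h) (fun h => hCB b hb h)) hup
  have p2 : φ p = φ q := by
    refine GO_const (W := box x m) hφ ?_ ?_
      (hCX.1 x m p q (le_of_eq hp) (le_of_eq hq))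
    · intro w hw
      exact hbox (le_trans hw hmn.le)
    · intro a ha b hb
      refine hf1 a b (fun h => ?_) (fun h => ?_)
      · have h1 := hBm a h
        have h2 : sd x a ≤ m := ha
        omega
      · have h1 := hBm b h
        have h2 : sd x b ≤ m := hb
        omega
  have p3 : φ v = φ q := GO_const (W := U \ C) hφ (Set.sdiff_subset.trans hUR)
    (fun a ha b hb => hf0 a b ha.2 hb.2) hvq
  have huv : φ u = φ v := by rw [p1, p2, p3]
  have huC : u ∈ C := hup.1
  have hvC : v ∉ C := hvq.1.2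
  -- transport along an arc
  have harc : ∀ s t : V, s ∈ bd x n → t ∈ bd x n →
      (¬ ∃ a b : V, ((nxt x n a b ∧ a ≠ t) ∨ (nxt x n b a ∧ b ≠ t)) ∧ onArc x n s t a ∧
        onArc x n s t b ∧ a ∈ C ∧ b ∉ C ∧ ∃ p ∈ bd x m, Con N b p) →
      φ t + (if t ∈ C then 1 else 0) = φ s + (if s ∈ C then 1 else 0) := by
    intro s t hs ht hno
    refine hAI x n s t (fun z => φ z + (if z ∈ C then 1 else 0) =
      φ s + (if s ∈ C then 1 else 0)) (by omega) hs ht rfl ?_
    intro a b hab hat _ haA hbA hP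
    rw [← hP]
    have hadj : Adj a b := hPO.2.2.2 x n a b (by omega) hab
    have ha : a ∈ bd x n := hab.1
    have hb : b ∈ bd x n := hab.2.1
    have haU : a ∈ U := ⟨by rw [show sd x a = n from ha]; omega, le_of_eq ha⟩
    have hbU : b ∈ U := ⟨by rw [show sd x b = n from hb]; omega, le_of_eq hb⟩
    have hfe := hφ a (hUR haU) b (hUR hbU) hadj
    have hneg : ∀ y : ZMod 2, y + y = 0 := fun y => CharTwo.add_self_eq_zero y
    by_cases h1 : a ∈ C <;> by_cases h2 : b ∈ C
    · rw [hf1 a b (fun h => hCB a h1 h) (fun h => hCB b h2 h)] at hfe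
      simp only [h1, h2, if_true]
      have : φ b = φ a + (φ a + φ b) := by rw [← add_assoc, hneg, zero_add]
      rw [this, ← hfe, add_zero]
    · have hbB : b ∈ B := by
        refine ⟨⟨hbU, h2, a, h1, hadj⟩, fun h => hno ⟨a, b, Or.inl ⟨hab, hat⟩, haA, hbA, h1, h2, h⟩⟩
      have hf : f a b = 1 := by simp [f, GO_f, h1, hbB]
      rw [hf] at hfe
      simp only [h1, h2, if_true, if_false, add_zero]
      have : φ b = φ a + (φ a + φ b) := by rw [← add_assoc, hneg, zero_add]
      rw [this, ← hfe]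
    · have haB : a ∈ B := by
        refine ⟨⟨haU, h1, b, h2, hadj.symm⟩, fun h => hno ⟨b, a, Or.inr ⟨hab, hat⟩, hbA, haA, h2, h1, h⟩⟩
      have hf : f a b = 1 := by simp [f, GO_f, h2, haB]
      rw [hf] at hfe
      simp only [h1, h2, if_true, if_false, add_zero]
      have : φ b = φ a + (φ a + φ b) := by rw [← add_assoc, hneg, zero_add]
      rw [this, ← hfe, add_assoc, hneg, add_zero]
    · rw [hf0 a b h1 h2] at hfe
      simp only [h1, h2, if_false, add_zero]
      have : φ b = φ a + (φ a + φ b) := by rw [← add_assoc, hneg, zero_add]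
      rw [this, ← hfe, add_zero]
  have hbad : ∀ s t : V, (s = u ∧ t = v) ∨ (s = v ∧ t = u) →
      φ t + (if t ∈ C then 1 else 0) ≠ φ s + (if s ∈ C then (1 : ZMod 2) else 0) := by
    rintro s t (⟨rfl, rfl⟩ | ⟨rfl, rfl⟩) <;> simp [huC, hvC, huv]
  constructor
  · by_contra hno
    refine hbad u v (Or.inl ⟨rfl, rfl⟩) (harc u v hu hv ?_)
    rintro ⟨a, b, h1 | h1, h2⟩
    · exact hno ⟨a, b, Or.inl h1.1, h2⟩
    · exact hno ⟨a, b, Or.inr h1, h2⟩
  · by_contra hno
    refine hbad v u (Or.inr ⟨rfl, rfl⟩) (harc v u hv hu ?_)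
    rintro ⟨a, b, h1 | h1, h2⟩
    · exact hno ⟨a, b, Or.inl h1, h2⟩
    · exact hno ⟨a, b, Or.inr h1.1, h2⟩

end DP
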