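import Pool.Agent.helper61.DP.SpecA

/-!
# EX: one step of the exploration of the interface (project dp)
-/

namespace DP

/-- A function which is constant along the edges where `f` vanishes. -/
theorem EX_const {R W : Set V} {f : V → V → ZMod 2} {φ : V → ZMod 2}
    (hφ : ∀ u ∈ R, ∀ v ∈ R, Adj u v → f u v = φ u + φ v) (hW : W ⊆ R)
    (h0 : ∀ u ∈ W, ∀ v ∈ W, f u v = 0) {u v : V} (h : Con W u v) : φ u = φ v := by
  refine h.induct' (fun z => φ u = φ z) rfl fun a b ha hb hab hP => ?_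
  have h1 := hφ a (hW ha) b (hW hb) hab
  rw [h0 a ha b hb] at h1
  rw [hP]
  have h2 : φ a = -φ b := eq_neg_of_add_eq_zero_left h1.symm
  rw [h2, ZMod.neg_eq_self_mod_two]

theorem EX (hPR : PR_stmt) : EX_stmt := by
  classical
  intro c a b d e X hab hde hX _ _
  by_contra hcon
  push Not at hcon
  obtain ⟨hb, he, hw⟩ := hcon
  let A : Set V := {v | (v ∈ X ∧ c v = true) ∨ (v.1 = a - 1 ∧ d ≤ v.2)}
  let B : Set V := {v | (v ∈ X ∧ c v = false) ∨ (v.2 = d - 1)}
  have hXr : ∀ v ∈ X, a ≤ v.1 ∧ v.1 ≤ b ∧ d ≤ v.2 ∧ v.2 ≤ e := fun v hv => hX hv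
  have hAB : ∀ v, v ∈ A → v ∈ B → False := by
    rintro v (⟨h1, h2⟩ | ⟨h1, h2⟩) (⟨h3, h4⟩ | h3)
    · rw [h2] at h4
      exact absurd h4 (by decide)
    · have := hXr v h1
      omega
    · have := hXr v h3
      omega
    · omega
  let f : V → V → ZMod 2 := fun u v => if (u ∈ A ∧ v ∈ B) ∨ (u ∈ B ∧ v ∈ A) then 1 else 0
  have hf0 : ∀ u v, u ∉ A → v ∉ A → f u v = 0 := by
    intro u v hu hv
    simp [f, hu, hv]
  have hf1 : ∀ u v, u ∉ B → v ∉ B → f u v = 0 := by
    intro u v hu hv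
    simp [f, hu, hv]
  -- the third vertex of a triangle with an `A`-`B` edge is in `A ∪ B`
  have key : ∀ u v w, w ∈ rect (a - 1) b (d - 1) e → Adj u w → Adj v w → u ∈ A → v ∈ B →
      w ∈ A ∨ w ∈ B := by
    intro u v w hwR huw hvw hu hv
    by_contra hcw
    push Not at hcw
    obtain ⟨hwA, hwB⟩ := hcw
    simp only [rect, Set.mem_ofPred_eq] at hwR
    have h2 : w.2 ≠ d - 1 := fun h => hwB (Or.inr h)
    have h1 : w.1 ≠ a - 1 := fun h => hwA (Or.inr ⟨h, by omega⟩)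
    have hwX : w ∉ X := by
      intro h
      cases hc : c w with
      | true => exact hwA (Or.inl ⟨h, hc⟩)
      | false => exact hwB (Or.inl ⟨h, hc⟩)
    have hwr : w ∈ rect a b d e := by
      simp only [rect, Set.mem_ofPred_eq]
      omega
    have h3 : w.1 = a ∨ ∃ v ∈ X, c v = true ∧ Adj v w := by
      rcases hu with ⟨hu1, hu2⟩ | ⟨hu1, hu2⟩
      · exact Or.inr ⟨u, hu1, hu2, huw⟩
      · left
        rw [adj_iff] at huw
        omega
    obtain ⟨h4, h5⟩ := hw w hwr hwX h3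
    rcases hv with ⟨hv1, hv2⟩ | hv1
    · exact h5 v hv1 hv2 hvw
    · rw [adj_iff] at hvw
      omega
  have hcl : Closed (rect (a - 1) b (d - 1) e) f := by
    refine ⟨fun u v => ?_, fun u v w hu hv hw' huv hvw hwu => ?_⟩
    · have : ((u ∈ A ∧ v ∈ B) ∨ (u ∈ B ∧ v ∈ A)) ↔ ((v ∈ A ∧ u ∈ B) ∨ (v ∈ B ∧ u ∈ A)) := by
        tauto
      simp only [f, this]
    · have k1 := key u v w hw' hwu.symm hvw
      have k1' := key v u w hw' hvw hwu.symm
      have k2 := key v w u hu huv.symm hwu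
      have k2' := key w v u hu hwu huv.symm
      have k3 := key u w v hv huv hvw.symm
      have k3' := key w u v hv hvw.symm huv
      have a1 := hAB u
      have a2 := hAB v
      have a3 := hAB w
      by_cases uA : u ∈ A <;> by_cases uB : u ∈ B <;> by_cases vA : v ∈ A <;>
        by_cases vB : v ∈ B <;> by_cases wA : w ∈ A <;> by_cases wB : w ∈ B <;>
        simp only [f, uA, uB, vA, vB, wA, wB, true_and, and_true, or_true, true_or, if_true,
          false_and, and_false, or_false, false_or, if_false, add_zero, zero_add,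
          true_imp_iff, imp_false, not_true_eq_false, or_self, and_self] at * <;>
        first | rfl | decide | tauto
  obtain ⟨φ, hφ⟩ := hPR (a - 1) b (d - 1) e f hcl
  -- up the left frame
  have p1 : φ (a - 1, d) = φ (a - 1, e) := by
    refine EX_const (W := {v | v.1 = a - 1 ∧ d ≤ v.2 ∧ v.2 ≤ e}) hφ ?_ ?_
      (con_vert _ _ _ hde fun t h1 h2 => ⟨rfl, h1, h2⟩)
    · rintro v ⟨h1, h2, h3⟩
      simp only [rect, Set.mem_ofPred_eq]
      omega
    · rintro u ⟨h1, h2, h3⟩ v ⟨h4, h5, h6⟩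
      exact hf1 u v (fun h => hAB u (Or.inr ⟨h1, h2⟩) h) (fun h => hAB v (Or.inr ⟨h4, h5⟩) h)
  -- along the top row
  have p2 : φ (a - 1, e) = φ (b, e) := by
    refine EX_const (W := {v | v.2 = e ∧ a - 1 ≤ v.1 ∧ v.1 ≤ b}) hφ ?_ ?_
      (con_horiz _ _ _ (by omega) fun t h1 h2 => ⟨rfl, h1, h2⟩)
    · rintro v ⟨h1, h2, h3⟩
      simp only [rect, Set.mem_ofPred_eq]
      omega
    · have : ∀ u : V, u.2 = e → u ∉ B := by
        rintro u h1 (⟨h2, h3⟩ | h2)
        · exact he u h2 h3 h1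
        · omega
      rintro u ⟨h1, h2, h3⟩ v ⟨h4, h5, h6⟩
      exact hf1 u v (this u h1) (this v h4)
  -- down the right column
  have p3 : φ (b, d - 1) = φ (b, e) := by
    refine EX_const (W := {v | v.1 = b ∧ d - 1 ≤ v.2 ∧ v.2 ≤ e}) hφ ?_ ?_
      (con_vert _ _ _ (by omega) fun t h1 h2 => ⟨rfl, h1, h2⟩)
    · rintro v ⟨h1, h2, h3⟩
      simp only [rect, Set.mem_ofPred_eq]
      omega
    · have : ∀ u : V, u.1 = b → u ∉ A := by
        rintro u h1 (⟨h2, h3⟩ | ⟨h2, h3⟩)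
        · exact hb u h2 h3 h1
        · omega
      rintro u ⟨h1, h2, h3⟩ v ⟨h4, h5, h6⟩
      exact hf0 u v (this u h1) (this v h4)
  -- along the bottom frame
  have p4 : φ (a - 1, d - 1) = φ (b, d - 1) := by
    refine EX_const (W := {v | v.2 = d - 1 ∧ a - 1 ≤ v.1 ∧ v.1 ≤ b}) hφ ?_ ?_
      (con_horiz _ _ _ (by omega) fun t h1 h2 => ⟨rfl, h1, h2⟩)
    · rintro v ⟨h1, h2, h3⟩
      simp only [rect, Set.mem_ofPred_eq]
      omega
    · have : ∀ u : V, u.2 = d - 1 → u ∉ A := fun u h1 h => hAB u h (Or.inr h1)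
      rintro u ⟨h1, h2, h3⟩ v ⟨h4, h5, h6⟩
      exact hf0 u v (this u h1) (this v h4)
  have hlast := hφ (a - 1, d) (by simp only [rect, Set.mem_ofPred_eq]; omega) (a - 1, d - 1)
    (by simp only [rect, Set.mem_ofPred_eq]; omega) (by rw [adj_iff]; dsimp only; omega)
  have hone : f (a - 1, d) (a - 1, d - 1) = 1 := by
    have h1 : ((a - 1, d) : V) ∈ A := Or.inr ⟨rfl, le_rfl⟩
    have h2 : ((a - 1, d - 1) : V) ∈ B := Or.inr rfl
    simp [f, h1, h2]
  rw [hone, p4, p3, p1, p2] at hlast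
  have : φ (b, e) + φ (b, e) = 0 := CharTwo.add_self_eq_zero _
  rw [this] at hlast
  exact one_ne_zero hlast

end DP
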